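import Pool.Agent.L7h73.FA.Dua
import Pool.Agent.L7h22.FA.Lq

/-!
# Lower bound for the Jacobian and injectivity
-/

set_option autoImplicit false
set_option linter.unusedVariables false

open MeasureTheory Metric Set Filter Topology

namespace Pool.Agent.L7h73.FA

open Pool.Agent.L7h77.FA
open Pool.Agent.H241R3.FV (E Sph sig)
open Pool.Agent.L7h22.FA (exists_ON)

lemma on_basis {e e' : E 2} (h : ON e e') :
    ∃ ob : OrthonormalBasis (Fin 2) ℝ (E 2), ob 0 = e ∧ ob 1 = e' := by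
  have hon : Orthonormal ℝ (![e, e']) := by
    obtain ⟨h1, h2, h3⟩ := h
    rw [orthonormal_iff_ite]
    intro i j
    fin_cases i <;> fin_cases j <;>
      simp [h3, real_inner_comm, h1, h2]
  have hcard : Fintype.card (Fin 2) = Module.finrank ℝ (E 2) := by simp [E]
  have hsp : ⊤ ≤ Submodule.span ℝ (Set.range (![e, e'])) :=
    (hon.linearIndependent.span_eq_top_of_card_eq_finrank' hcard).ge
  refine ⟨OrthonormalBasis.mk hon hsp, ?_, ?_⟩
  · rw [OrthonormalBasis.coe_mk]; rfl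
  · rw [OrthonormalBasis.coe_mk]; rfl

lemma det_ON {e e' : E 2} (h : ON e e') (L : E 2 →L[ℝ] E 2) :
    L.det = inner ℝ (L e) e * inner ℝ (L e') e' - inner ℝ (L e') e * inner ℝ (L e) e' := by
  obtain ⟨ob, h0, h1⟩ := on_basis h
  have h2 := LinearMap.det_toMatrix ob.toBasis (L : E 2 →ₗ[ℝ] E 2)
  have h3 : L.det = LinearMap.det (L : E 2 →ₗ[ℝ] E 2) := rfl
  rw [h3, ← h2, Matrix.det_fin_two]
  simp only [LinearMap.toMatrix_apply, OrthonormalBasis.coe_toBasis,
    OrthonormalBasis.coe_toBasis_repr_apply, OrthonormalBasis.repr_apply_apply,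
    ContinuousLinearMap.coe_coe, h0, h1]
  rw [real_inner_comm e, real_inner_comm e', real_inner_comm e, real_inner_comm e']

lemma norm_ON {e e' : E 2} (h : ON e e') (v : E 2) :
    ‖v‖ ^ 2 = (inner ℝ v e : ℝ) ^ 2 + (inner ℝ v e' : ℝ) ^ 2 := by
  obtain ⟨ob, h0, h1⟩ := on_basis h
  have h2 := ob.sum_inner_mul_inner v v
  rw [Fin.sum_univ_two, h0, h1, real_inner_self_eq_norm_sq, real_inner_comm v e,
    real_inner_comm v e'] at h2
  rw [← h2]
  ring

section

variable {r : ℝ}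

lemma int_lin {φ : ℝ → ℝ} (hφ : Continuous φ) {h k : ℝ → ℝ} (hh : Continuous h)
    (hk : Continuous k) (a b : ℝ) :
    ∫ w in (0 : ℝ)..(2 * Real.pi), φ w * (a * h w + b * k w) =
      a * (∫ w in (0 : ℝ)..(2 * Real.pi), φ w * h w) +
        b * ∫ w in (0 : ℝ)..(2 * Real.pi), φ w * k w := by
  rw [← intervalIntegral.integral_const_mul, ← intervalIntegral.integral_const_mul,
    ← intervalIntegral.integral_add (by apply Continuous.intervalIntegrable; fun_prop)
      (by apply Continuous.intervalIntegrable; fun_prop)]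
  exact intervalIntegral.integral_congr fun w _ => by ring

lemma int_bnd {φ h : ℝ → ℝ} (hφ : Continuous φ) (hh : Continuous h) {M : ℝ}
    (hM : ∀ w, |φ w - φ 0| ≤ M) (h1 : ∀ w, |h w| ≤ 1)
    (h0 : ∫ w in (0 : ℝ)..(2 * Real.pi), h w = 0) :
    |∫ w in (0 : ℝ)..(2 * Real.pi), φ w * h w| ≤ M * (2 * Real.pi) := by
  have e1 : ∫ w in (0 : ℝ)..(2 * Real.pi), φ w * h w =
      ∫ w in (0 : ℝ)..(2 * Real.pi), (φ w - φ 0) * h w := by
    have e2 : ∫ w in (0 : ℝ)..(2 * Real.pi), (φ w - φ 0) * h w =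
        (∫ w in (0 : ℝ)..(2 * Real.pi), φ w * h w) -
          φ 0 * ∫ w in (0 : ℝ)..(2 * Real.pi), h w := by
      rw [← intervalIntegral.integral_const_mul,
        ← intervalIntegral.integral_sub (by apply Continuous.intervalIntegrable; fun_prop)
        (by apply Continuous.intervalIntegrable; fun_prop)]
      exact intervalIntegral.integral_congr fun w _ => by ring
    rw [e2, h0, mul_zero, sub_zero]
  rw [e1]
  have h2 := intervalIntegral.norm_integral_le_of_norm_le_const (a := 0) (b := 2 * Real.pi)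
    (f := fun w => (φ w - φ 0) * h w) (C := M) (fun w _ => by
      rw [Real.norm_eq_abs, abs_mul]
      have h3 := hM w
      have h4 := h1 w
      have h5 := abs_nonneg (φ w - φ 0)
      have h6 := abs_nonneg (h w)
      nlinarith)
  rw [sub_zero, abs_of_pos (by positivity : (0 : ℝ) < 2 * Real.pi), Real.norm_eq_abs] at h2
  exact h2

lemma int_cs2 : ∫ w in (0 : ℝ)..(2 * Real.pi), Real.cos w * Real.sin w ^ 2 = 0 := by
  have h : ∀ w ∈ uIcc (0 : ℝ) (2 * Real.pi), HasDerivAt (fun w => Real.sin w ^ 3 / 3)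
      (Real.cos w * Real.sin w ^ 2) w := by
    intro w _
    refine (((Real.hasDerivAt_sin w).pow 3).div_const 3).congr_deriv ?_
    simp only [Nat.cast_ofNat, Nat.add_one_sub_one]
    ring
  rw [intervalIntegral.integral_eq_sub_of_hasDerivAt h
    (by apply Continuous.intervalIntegrable; fun_prop)]
  simp

lemma int_c2s : ∫ w in (0 : ℝ)..(2 * Real.pi), Real.cos w ^ 2 * Real.sin w = 0 := by
  have h : ∀ w ∈ uIcc (0 : ℝ) (2 * Real.pi), HasDerivAt (fun w => -(Real.cos w ^ 3 / 3))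
      (Real.cos w ^ 2 * Real.sin w) w := by
    intro w _
    refine (((Real.hasDerivAt_cos w).pow 3).div_const 3).neg.congr_deriv ?_
    simp only [Nat.cast_ofNat, Nat.add_one_sub_one]
    ring
  rw [intervalIntegral.integral_eq_sub_of_hasDerivAt h
    (by apply Continuous.intervalIntegrable; fun_prop)]
  simp

/-- quadratic integrals -/
lemma int_quad (p q p' q' : ℝ) : ∫ w in (0 : ℝ)..(2 * Real.pi),
    (p * Real.cos w + q * Real.sin w) * (p' * Real.cos w + q' * Real.sin w) =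
      Real.pi * (p * p' + q * q') := by
  have h1 := int_sq (p + p') (q + q')
  have h2 := int_sq (p - p') (q - q')
  have e1 : ∫ w in (0 : ℝ)..(2 * Real.pi),
      (p * Real.cos w + q * Real.sin w) * (p' * Real.cos w + q' * Real.sin w) =
      1 / 4 * ((∫ w in (0 : ℝ)..(2 * Real.pi),
        ((p + p') * Real.cos w + (q + q') * Real.sin w) ^ 2) -
        ∫ w in (0 : ℝ)..(2 * Real.pi), ((p - p') * Real.cos w + (q - q') * Real.sin w) ^ 2) := by
    rw [← intervalIntegral.integral_sub (by apply Continuous.intervalIntegrable; fun_prop)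
        (by apply Continuous.intervalIntegrable; fun_prop),
      ← intervalIntegral.integral_const_mul]
    exact intervalIntegral.integral_congr fun w _ => by ring
  rw [e1, h1, h2]
  ring

/-- the value and the derivative of `T` in the new angle -/
lemma setup (hPAR : S_PAR) (hFR1 : S_FR1) (hFR2 : S_FR2) {e e' : E 2} (he : ON e e')
    (h0 : 0 ≤ r) (h1 : r < 1) {F : Sph 2 → ℝ} (hF : Lip1 F) : ∃ f : ℝ → ℝ, LipR r f ∧
    (∀ w, |(f w - aa r w) - (f 0 - aa r 0)| ≤ 2 * Real.pi) ∧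
    (∀ v : E 2, (inner ℝ (T F (r • e)) v : ℝ) = (inner ℝ v e : ℝ) * m1 r f +
      √(1 - r ^ 2) * (inner ℝ v e' : ℝ) * m2 r f) ∧
    ∃ L : E 2 →L[ℝ] E 2, HasFDerivAt (T F) L (r • e) ∧ ∀ v v' : E 2,
      √(1 - r ^ 2) * (inner ℝ (L v') v : ℝ) =
        -(Real.pi * ((inner ℝ v e : ℝ) * (inner ℝ v' e : ℝ) + (√(1 - r ^ 2) * (inner ℝ v e' : ℝ)) *
            (√(1 - r ^ 2) * (inner ℝ v' e' : ℝ))) -
          3 * (r / √(1 - r ^ 2)) * ∫ w in (0 : ℝ)..(2 * Real.pi), (f w - aa r w) *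
            (Real.cos w * (((inner ℝ v e : ℝ) * Real.cos w +
              √(1 - r ^ 2) * (inner ℝ v e' : ℝ) * Real.sin w) *
            ((inner ℝ v' e : ℝ) * Real.cos w +
              √(1 - r ^ 2) * (inner ℝ v' e' : ℝ) * Real.sin w)))) -
        2 * (r / √(1 - r ^ 2)) * (inner ℝ v' e : ℝ) * (inner ℝ (T F (r • e)) v : ℝ) := by
  obtain ⟨hp1, hp2, hp3⟩ := hPAR e e' he r h0 h1
  have hL := hp3 F hF
  obtain ⟨f, hfdef⟩ : ∃ f : ℝ → ℝ, f = fun w => F (pt (Th e e' r w)) := ⟨_, rfl⟩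
  have hfw : ∀ w, F (pt (Th e e' r w)) = f w := fun w => by rw [hfdef]
  rw [← hfdef] at hL
  have hfc := lip_cont h0 h1 hL
  have hac := aa_cont h0 h1
  refine ⟨f, hL, ?_, ?_, ?_⟩
  · intro w
    have e1 : |f w - f 0| ≤ Real.pi := by
      rw [← hfw, ← hfw]
      exact (hF _ _).trans (InnerProductGeometry.angle_le_pi _ _)
    have e2 : |aa r w - aa r 0| ≤ Real.pi := by
      unfold aa
      have a1 := Real.arctan_lt_pi_div_two (r / √(1 - r ^ 2) * Real.cos w)
      have a2 := Real.neg_pi_div_two_lt_arctan (r / √(1 - r ^ 2) * Real.cos w)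
      have a3 := Real.arctan_lt_pi_div_two (r / √(1 - r ^ 2) * Real.cos 0)
      have a4 := Real.neg_pi_div_two_lt_arctan (r / √(1 - r ^ 2) * Real.cos 0)
      rw [abs_le]
      constructor <;> linarith
    have e3 : (f w - aa r w) - (f 0 - aa r 0) = (f w - f 0) - (aa r w - aa r 0) := by ring
    rw [e3]
    exact (abs_sub _ _).trans (by linarith)
  · intro v
    rw [hFR1 e e' he r h0 h1 F hF v]
    simp only [hfw]
    unfold m1 m2
    exact int_lin (φ := fun w => f w - aa r w) (by fun_prop)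
      (h := Real.cos) (k := Real.sin) (by fun_prop) (by fun_prop) _ _
  · obtain ⟨L, hLd, hLv⟩ := hFR2 e e' he r h0 h1 F hF
    refine ⟨L, hLd, fun v v' => ?_⟩
    rw [hLv v v']
    simp only [hfw]
    congr 2
    have hq := int_quad (inner ℝ v e : ℝ) (√(1 - r ^ 2) * (inner ℝ v e' : ℝ)) (inner ℝ v' e : ℝ)
      (√(1 - r ^ 2) * (inner ℝ v' e' : ℝ))
    rw [← hq, ← intervalIntegral.integral_const_mul,
      ← intervalIntegral.integral_sub (by apply Continuous.intervalIntegrable; fun_prop)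
        (by apply Continuous.intervalIntegrable; fun_prop)]
    exact intervalIntegral.integral_congr fun w _ => by ring

/-- the derivative is negative definite -/
lemma neg_def (hPAR : S_PAR) (hFR1 : S_FR1) (hFR2 : S_FR2) (hN2 : S_N2) {F : Sph 2 → ℝ}
    (hF : Lip1 F) {x : E 2} (hx : ‖x‖ < 1) : ∃ L : E 2 →L[ℝ] E 2, HasFDerivAt (T F) L x ∧
    ∀ v : E 2, v ≠ 0 → (inner ℝ (L v) v : ℝ) < 0 := by
  obtain ⟨e, e', he, hxe⟩ := exists_ON x
  obtain ⟨f, hf, hb, hT, L, hL, hLv⟩ := setup hPAR hFR1 hFR2 he (norm_nonneg x) hx hF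
  rw [← hxe] at hL hT hLv
  refine ⟨L, hL, fun v hv => ?_⟩
  have hc := c_pos (norm_nonneg x) hx
  have h1 := hLv v v
  set p : ℝ := (inner ℝ v e : ℝ) with hp
  set q : ℝ := √(1 - ‖x‖ ^ 2) * (inner ℝ v e' : ℝ) with hq
  have h2 := hN2 ‖x‖ f (norm_nonneg x) hx hf p q
  have hpq : 0 < p ^ 2 + q ^ 2 := by
    have h3 : 0 < ‖v‖ ^ 2 := by positivity
    rw [norm_ON he v] at h3
    by_contra hcon
    have h4 : p = 0 := by nlinarith [sq_nonneg p, sq_nonneg q]
    have h5 : q = 0 := by nlinarith [sq_nonneg p, sq_nonneg q]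
    rw [← hp, h4] at h3
    have h6 : (inner ℝ v e' : ℝ) = 0 := by
      rcases mul_eq_zero.1 h5 with h | h
      · exact absurd h hc.ne'
      · exact h
    rw [h6] at h3
    norm_num at h3
  have e1 : ∫ w in (0 : ℝ)..(2 * Real.pi), (f w - aa ‖x‖ w) * (Real.cos w *
      ((p * Real.cos w + q * Real.sin w) * (p * Real.cos w + q * Real.sin w))) =
      ∫ w in (0 : ℝ)..(2 * Real.pi), (f w - aa ‖x‖ w) * Real.cos w *
        (p * Real.cos w + q * Real.sin w) ^ 2 :=
    intervalIntegral.integral_congr fun w _ => by ring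
  have e2 : (inner ℝ (T F x) v : ℝ) = ∫ w in (0 : ℝ)..(2 * Real.pi),
      (f w - aa ‖x‖ w) * (p * Real.cos w + q * Real.sin w) := by
    have hfc := lip_cont (norm_nonneg x) hx hf
    have hac := aa_cont (norm_nonneg x) hx
    rw [hT v, int_lin (φ := fun w => f w - aa ‖x‖ w) (by fun_prop)
      (h := Real.cos) (k := Real.sin) (by fun_prop) (by fun_prop) p q]
    rfl
  rw [e1, e2] at h1
  have h3 : √(1 - ‖x‖ ^ 2) * (inner ℝ (L v) v : ℝ) < 0 := by
    rw [h1]
    have h4 : 0 < Real.pi * (p ^ 2 + q ^ 2) := mul_pos Real.pi_pos hpq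
    nlinarith [h2, h4]
  by_contra hcon
  push Not at hcon
  have := mul_nonneg hc.le hcon
  linarith

lemma T_inj (hPAR : S_PAR) (hFR1 : S_FR1) (hFR2 : S_FR2) (hN2 : S_N2) {F : Sph 2 → ℝ}
    (hF : Lip1 F) {x y : E 2} (hx : ‖x‖ < 1) (hy : ‖y‖ < 1) (hxy : T F x = T F y) : x = y := by
  by_contra hne
  have key : ∀ z : E 2, ‖z‖ < 1 → ∃ L : E 2 →L[ℝ] E 2, HasFDerivAt (T F) L z ∧
      ∀ v : E 2, v ≠ 0 → (inner ℝ (L v) v : ℝ) < 0 := fun z hz => neg_def hPAR hFR1 hFR2 hN2 hF hz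
  choose! L hL hneg using key
  set u : E 2 := y - x with hu
  have hu0 : u ≠ 0 := sub_ne_zero.2 (Ne.symm hne)
  have hz : ∀ t ∈ Icc (0 : ℝ) 1, ‖x + t • u‖ < 1 := by
    intro t ht
    have h1 : x + t • u = (1 - t) • x + t • y := by rw [hu, smul_sub, sub_smul, one_smul]; abel
    have h2 := (convex_ball (0 : E 2) 1) (mem_ball_zero_iff.2 hx) (mem_ball_zero_iff.2 hy)
      (by linarith [ht.2] : (0 : ℝ) ≤ 1 - t) ht.1 (by ring)
    rw [h1]
    exact mem_ball_zero_iff.1 h2
  have hline : ∀ t : ℝ, HasDerivAt (fun t : ℝ => x + t • u) u t := by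
    intro t
    have := ((hasDerivAt_id t).smul_const u).const_add x
    simpa using this
  have hd : ∀ t ∈ Icc (0 : ℝ) 1, HasDerivAt (fun t : ℝ => (inner ℝ (T F (x + t • u)) u : ℝ))
      (inner ℝ (L (x + t • u) u) u) t := by
    intro t ht
    have h1 := (hL _ (hz t ht)).comp_hasDerivAt t (hline t)
    have h2 := h1.inner ℝ (hasDerivAt_const t u)
    simpa using h2
  obtain ⟨t, ht, hteq⟩ := exists_hasDerivAt_eq_slope
    (fun t : ℝ => (inner ℝ (T F (x + t • u)) u : ℝ))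
    (fun t : ℝ => (inner ℝ (L (x + t • u) u) u : ℝ)) (zero_lt_one)
    (fun t ht => (hd t ht).continuousAt.continuousWithinAt)
    (fun t ht => hd t (Ioo_subset_Icc_self ht))
  have h1 : x + (1 : ℝ) • u = y := by rw [hu, one_smul]; abel
  have h2 : x + (0 : ℝ) • u = x := by rw [zero_smul, add_zero]
  simp only [h1, h2, hxy, sub_self, zero_div] at hteq
  have h3 := hneg _ (hz t (Ioo_subset_Icc_self ht)) u hu0
  linarith

/-- the determinant -/
lemma det_formula (hPAR : S_PAR) (hFR1 : S_FR1) (hFR2 : S_FR2) {e e' : E 2} (he : ON e e')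
    (h0 : 0 ≤ r) (h1 : r < 1) {F : Sph 2 → ℝ} (hF : Lip1 F) : ∃ f : ℝ → ℝ, LipR r f ∧
    (inner ℝ (T F (r • e)) e : ℝ) = m1 r f ∧
    (inner ℝ (T F (r • e)) e' : ℝ) = √(1 - r ^ 2) * m2 r f ∧
    ∃ L : E 2 →L[ℝ] E 2, HasFDerivAt (T F) L (r • e) ∧ ∃ B D : ℝ,
      |B| ≤ 12 * Real.pi ^ 2 * (r / √(1 - r ^ 2)) ∧
      |D| ≤ Real.pi + 12 * Real.pi ^ 2 * (r / √(1 - r ^ 2)) ∧
      L.det = (Real.pi - 3 / 2 * (r / √(1 - r ^ 2)) * m1 r f) ^ 2 -
        (xx r f ^ 2 + yy r f ^ 2) / 4 +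
        2 * (r / √(1 - r ^ 2)) * (m1 r f * D - m2 r f * B) := by
  obtain ⟨f, hf, hb, hT, L, hL, hLv⟩ := setup hPAR hFR1 hFR2 he h0 h1 hF
  have hc := c_pos h0 h1
  have hfc := lip_cont h0 h1 hf
  have hac := aa_cont h0 h1
  obtain ⟨hn, hn', hee'⟩ := id he
  have i1 : (inner ℝ e e : ℝ) = 1 := by rw [real_inner_self_eq_norm_sq, hn]; norm_num
  have i2 : (inner ℝ e' e' : ℝ) = 1 := by rw [real_inner_self_eq_norm_sq, hn']; norm_num
  have i3 : (inner ℝ e' e : ℝ) = 0 := by rw [real_inner_comm]; exact hee'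
  have hT1 : (inner ℝ (T F (r • e)) e : ℝ) = m1 r f := by rw [hT e, i1, hee']; ring
  have hT2 : (inner ℝ (T F (r • e)) e' : ℝ) = √(1 - r ^ 2) * m2 r f := by
    rw [hT e', i3, i2]; ring
  have hbd : ∀ h : ℝ → ℝ, Continuous h → (∀ w, |h w| ≤ 1) →
      ∫ w in (0 : ℝ)..(2 * Real.pi), h w = 0 →
      |∫ w in (0 : ℝ)..(2 * Real.pi), (f w - aa r w) * h w| ≤ 4 * Real.pi ^ 2 := by
    intro h hh h2 h3
    refine (int_bnd (φ := fun w => f w - aa r w) (by fun_prop) hh hb h2 h3).trans (le_of_eq ?_)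
    ring
  have hs := fun w => Real.abs_sin_le_one w
  have hcs := fun w => Real.abs_cos_le_one w
  set g : ℝ := r / √(1 - r ^ 2) with hg
  have hg0 : 0 ≤ g := div_nonneg h0 hc.le
  set a3 : ℝ := ∫ w in (0 : ℝ)..(2 * Real.pi), (f w - aa r w) * Real.cos w ^ 3 with ha3
  set b : ℝ := ∫ w in (0 : ℝ)..(2 * Real.pi), (f w - aa r w) * (Real.cos w ^ 2 * Real.sin w)
    with hbdef
  set d : ℝ := ∫ w in (0 : ℝ)..(2 * Real.pi), (f w - aa r w) * (Real.cos w * Real.sin w ^ 2)
    with hddef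
  have hbb : |b| ≤ 4 * Real.pi ^ 2 := hbd _ (by fun_prop) (fun w => by
    rw [abs_mul, abs_pow]
    have := hs w; have := hcs w; have := abs_nonneg (Real.sin w)
    have := abs_nonneg (Real.cos w)
    have h5 : |Real.cos w| ^ 2 ≤ 1 := by nlinarith
    nlinarith [sq_nonneg |Real.cos w|]) int_c2s
  have hdd : |d| ≤ 4 * Real.pi ^ 2 := hbd _ (by fun_prop) (fun w => by
    rw [abs_mul, abs_pow]
    have := hs w; have := hcs w; have := abs_nonneg (Real.sin w)
    have := abs_nonneg (Real.cos w)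
    have h5 : |Real.sin w| ^ 2 ≤ 1 := by nlinarith
    nlinarith [sq_nonneg |Real.sin w|]) int_cs2
  have hd : d = m1 r f - a3 := by
    have h2 := int_lin (φ := fun w => f w - aa r w) (by fun_prop)
      (h := Real.cos) (k := fun w => Real.cos w ^ 3) (by fun_prop) (by fun_prop) 1 (-1)
    rw [hddef, ha3]
    unfold m1
    rw [show (∫ w in (0 : ℝ)..(2 * Real.pi), (f w - aa r w) * (Real.cos w * Real.sin w ^ 2)) =
      ∫ w in (0 : ℝ)..(2 * Real.pi), (f w - aa r w) *
        (1 * Real.cos w + -1 * Real.cos w ^ 3) from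
      intervalIntegral.integral_congr fun w _ => by
        have := Real.sin_sq_add_cos_sq w
        rw [show Real.sin w ^ 2 = 1 - Real.cos w ^ 2 by linarith]
        ring, h2]
    ring
  have hxx : xx r f = 3 * g * (2 * a3 - m1 r f) := by
    have h2 := int_lin (φ := fun w => f w - aa r w) (by fun_prop)
      (h := Real.cos) (k := fun w => Real.cos w ^ 3) (by fun_prop) (by fun_prop) (-1) 2
    unfold xx
    rw [show (∫ w in (0 : ℝ)..(2 * Real.pi), (f w - aa r w) * (Real.cos w * Real.cos (2 * w))) =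
      ∫ w in (0 : ℝ)..(2 * Real.pi), (f w - aa r w) *
        (-1 * Real.cos w + 2 * Real.cos w ^ 3) from
      intervalIntegral.integral_congr fun w _ => by
        rw [Real.cos_two_mul]
        ring, h2]
    rw [ha3, hg]
    unfold m1
    ring
  have hyy : yy r f = 6 * g * b := by
    unfold yy
    rw [show (∫ w in (0 : ℝ)..(2 * Real.pi), (f w - aa r w) * (Real.cos w * Real.sin (2 * w))) =
      ∫ w in (0 : ℝ)..(2 * Real.pi), 2 * ((f w - aa r w) *
        (Real.cos w ^ 2 * Real.sin w)) from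
      intervalIntegral.integral_congr fun w _ => by
        rw [Real.sin_two_mul]
        ring, intervalIntegral.integral_const_mul]
    rw [hbdef, hg]
    ring
  refine ⟨f, hf, hT1, hT2, L, hL, -3 * g * b, Real.pi - 3 * g * d, ?_, ?_, ?_⟩
  · rw [abs_mul, abs_mul, abs_of_nonneg hg0]
    norm_num
    nlinarith [mul_le_mul_of_nonneg_left hbb hg0]
  · refine (abs_sub _ _).trans ?_
    rw [abs_of_pos Real.pi_pos, abs_mul, abs_mul, abs_of_nonneg hg0]
    norm_num
    nlinarith [mul_le_mul_of_nonneg_left hdd hg0]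
  · have hLee := hLv e e
    have hLe'e := hLv e' e
    have hLee' := hLv e e'
    have hLe'e' := hLv e' e'
    rw [i1, hee'] at hLee
    rw [i1, hee', i3, i2] at hLe'e hLee'
    rw [i3, i2] at hLe'e'
    rw [hT1] at hLee hLee'
    rw [hT2] at hLe'e hLe'e'
    set c : ℝ := √(1 - r ^ 2) with hcdef
    have j1 : ∫ w in (0 : ℝ)..(2 * Real.pi), (f w - aa r w) * (Real.cos w *
        ((1 * Real.cos w + c * 0 * Real.sin w) * (1 * Real.cos w + c * 0 * Real.sin w))) = a3 :=
      intervalIntegral.integral_congr fun w _ => by ring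
    have j2 : ∫ w in (0 : ℝ)..(2 * Real.pi), (f w - aa r w) * (Real.cos w *
        ((0 * Real.cos w + c * 1 * Real.sin w) * (1 * Real.cos w + c * 0 * Real.sin w))) =
        c * b := by
      rw [hbdef, ← intervalIntegral.integral_const_mul]
      exact intervalIntegral.integral_congr fun w _ => by ring
    have j3 : ∫ w in (0 : ℝ)..(2 * Real.pi), (f w - aa r w) * (Real.cos w *
        ((1 * Real.cos w + c * 0 * Real.sin w) * (0 * Real.cos w + c * 1 * Real.sin w))) =
        c * b := by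
      rw [hbdef, ← intervalIntegral.integral_const_mul]
      exact intervalIntegral.integral_congr fun w _ => by ring
    have j4 : ∫ w in (0 : ℝ)..(2 * Real.pi), (f w - aa r w) * (Real.cos w *
        ((0 * Real.cos w + c * 1 * Real.sin w) * (0 * Real.cos w + c * 1 * Real.sin w))) =
        c ^ 2 * d := by
      rw [hddef, ← intervalIntegral.integral_const_mul]
      exact intervalIntegral.integral_congr fun w _ => by ring
    rw [j1] at hLee
    rw [j2] at hLe'e
    rw [j3] at hLee'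
    rw [j4] at hLe'e'
    have hdet := det_ON he L
    have k1 : (inner ℝ (L e) e : ℝ) = (-(Real.pi - 3 * g * a3) - 2 * g * m1 r f) / c := by
      rw [eq_div_iff hc.ne', mul_comm, hLee]; ring
    have k2 : (inner ℝ (L e) e' : ℝ) = 3 * g * b - 2 * g * m2 r f := by
      have : c * (inner ℝ (L e) e' : ℝ) = c * (3 * g * b - 2 * g * m2 r f) := by
        rw [hLe'e]; ring
      exact mul_left_cancel₀ hc.ne' this
    have k3 : (inner ℝ (L e') e : ℝ) = 3 * g * b := by
      have : c * (inner ℝ (L e') e : ℝ) = c * (3 * g * b) := by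
        rw [hLee']; ring
      exact mul_left_cancel₀ hc.ne' this
    have k4 : (inner ℝ (L e') e' : ℝ) = -c * (Real.pi - 3 * g * d) := by
      have : c * (inner ℝ (L e') e' : ℝ) = c * (-c * (Real.pi - 3 * g * d)) := by
        rw [hLe'e']; ring
      exact mul_left_cancel₀ hc.ne' this
    rw [hdet, k1, k2, k3, k4, hxx, hyy]
    have e5 : (-(Real.pi - 3 * g * a3) - 2 * g * m1 r f) / c * (-c * (Real.pi - 3 * g * d)) =
        ((Real.pi - 3 * g * a3) + 2 * g * m1 r f) * (Real.pi - 3 * g * d) := by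
      field_simp
      ring
    rw [e5, hd]
    ring

theorem s_DET (hPAR : S_PAR) (hFR1 : S_FR1) (hFR2 : S_FR2) (hN2 : S_N2) (hW : S_W) : S_DET := by
  intro r0 hr0 hr1
  obtain ⟨C', hC', hCW⟩ := hW r0 hr0 hr1
  set c0 : ℝ := √(1 - r0 ^ 2) with hc0
  have hc0p : 0 < c0 := c_pos hr0.le hr1
  set g0 : ℝ := r0 / c0 with hg0
  have hg0p : 0 ≤ g0 := by positivity
  set K : ℝ := Real.pi + 12 * Real.pi ^ 2 * g0 with hK
  have hKp : 0 ≤ K := by positivity
  refine ⟨(3 * Real.pi * g0 + C' / 4 + 2 * g0 * K) * (1 + 1 / c0), by positivity, ?_⟩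
  intro F hF
  refine ⟨?_, fun x y hx hy hxy => T_inj hPAR hFR1 hFR2 hN2 hF hx hy hxy⟩
  intro x hx
  have hx1 : ‖x‖ < 1 := hx.trans_lt hr1
  obtain ⟨e, e', he, hxe⟩ := exists_ON x
  obtain ⟨f, hf, hT1, hT2, L, hL, B, D, hB, hD, hdet⟩ :=
    det_formula hPAR hFR1 hFR2 he (norm_nonneg x) hx1 hF
  rw [← hxe] at hL hT1 hT2
  refine ⟨L, hL, ?_⟩
  have hr := norm_nonneg x
  have hc := c_pos hr hx1
  have hW' := hCW ‖x‖ f hr hx hf
  set r := ‖x‖ with hrdef
  set c : ℝ := √(1 - r ^ 2) with hcdef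
  set g : ℝ := r / c with hgdef
  have hcc : c0 ≤ c := Real.sqrt_le_sqrt (by nlinarith)
  have hg : 0 ≤ g := by positivity
  have hgg : g ≤ g0 := by
    rw [hgdef, hg0]
    exact div_le_div₀ hr0.le hx hc0p hcc
  set μ1 := m1 r f with hμ1
  set μ2 := m2 r f with hμ2
  have hn1 : |μ1| ≤ ‖T F x‖ := by
    rw [← hT1]
    have := abs_real_inner_le_norm (T F x) e
    rwa [he.1, mul_one] at this
  have hn2 : |μ2| ≤ ‖T F x‖ / c0 := by
    have h1 := abs_real_inner_le_norm (T F x) e'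
    rw [he.2.1, mul_one, hT2, abs_mul, abs_of_pos hc] at h1
    rw [le_div_iff₀ hc0p]
    have := abs_nonneg μ2
    nlinarith
  have hs : |μ1| + |μ2| ≤ ‖T F x‖ * (1 + 1 / c0) := by
    rw [mul_add, mul_one, mul_one_div]
    exact add_le_add hn1 hn2
  have hBK : |B| ≤ K := by
    refine hB.trans ?_
    have : 12 * Real.pi ^ 2 * g ≤ 12 * Real.pi ^ 2 * g0 :=
      mul_le_mul_of_nonneg_left hgg (by positivity)
    have := Real.pi_pos
    rw [hK]; linarith
  have hDK : |D| ≤ K := by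
    refine hD.trans ?_
    have : 12 * Real.pi ^ 2 * g ≤ 12 * Real.pi ^ 2 * g0 :=
      mul_le_mul_of_nonneg_left hgg (by positivity)
    rw [hK]; linarith
  have e1 : Real.pi ^ 2 * psi r = Real.pi ^ 2 - vv * (2 * r / (1 + r)) ^ 2 / 4 := by
    unfold psi
    have := Real.pi_pos.ne'
    field_simp
  have e2 : (Real.pi - 3 / 2 * g * μ1) ^ 2 ≥ Real.pi ^ 2 - 3 * Real.pi * g0 * |μ1| := by
    have h1 : g * μ1 ≤ g0 * |μ1| :=
      (mul_le_mul_of_nonneg_left (le_abs_self μ1) hg).trans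
        (mul_le_mul_of_nonneg_right hgg (abs_nonneg _))
    nlinarith [sq_nonneg (3 / 2 * g * μ1), Real.pi_pos]
  have e3 : g * (μ1 * D - μ2 * B) ≥ -(g0 * K * (|μ1| + |μ2|)) := by
    have h1 : |μ1 * D - μ2 * B| ≤ K * (|μ1| + |μ2|) := by
      refine (abs_sub _ _).trans ?_
      rw [abs_mul, abs_mul]
      have := mul_le_mul_of_nonneg_left hDK (abs_nonneg μ1)
      have := mul_le_mul_of_nonneg_left hBK (abs_nonneg μ2)
      linarith
    have h2 : |g * (μ1 * D - μ2 * B)| ≤ g0 * (K * (|μ1| + |μ2|)) := by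
      rw [abs_mul, abs_of_nonneg hg]
      exact mul_le_mul hgg h1 (abs_nonneg _) hg0p
    have h3 := neg_abs_le (g * (μ1 * D - μ2 * B))
    linarith
  have e4 : 3 * Real.pi * g0 * |μ1| ≤ 3 * Real.pi * g0 * (|μ1| + |μ2|) :=
    mul_le_mul_of_nonneg_left (by linarith [abs_nonneg μ2]) (by positivity)
  have e5 : (3 * Real.pi * g0 + C' / 4 + 2 * g0 * K) * (|μ1| + |μ2|) ≤
      (3 * Real.pi * g0 + C' / 4 + 2 * g0 * K) * (‖T F x‖ * (1 + 1 / c0)) :=
    mul_le_mul_of_nonneg_left hs (by positivity)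
  refine le_trans ?_ (le_abs_self _)
  rw [hdet, e1]
  nlinarith [e2, e3, e4, e5, hW']

end

end Pool.Agent.L7h73.FA
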