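import Pool.Agent.L7h77.FA.Stm

/-!
# One variable inequalities: duality, monotonicity, and the bound in one direction
-/

set_option autoImplicit false
set_option linter.unusedVariables false

open MeasureTheory Metric Set Filter Topology

namespace Pool.Agent.L7h73.FA

open Pool.Agent.L7h77.FA

section

variable {r : ℝ}

lemma sq_lt (h0 : 0 ≤ r) (h1 : r < 1) : 0 < 1 - r ^ 2 := by nlinarith

lemma c_pos (h0 : 0 ≤ r) (h1 : r < 1) : 0 < √(1 - r ^ 2) := Real.sqrt_pos.2 (sq_lt h0 h1)

lemma c_sq (h0 : 0 ≤ r) (h1 : r < 1) : √(1 - r ^ 2) ^ 2 = 1 - r ^ 2 :=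
  Real.sq_sqrt (sq_lt h0 h1).le

lemma den_ge (h0 : 0 ≤ r) (h1 : r < 1) (w : ℝ) : 1 - r ^ 2 ≤ 1 - r ^ 2 * Real.sin w ^ 2 := by
  have := Real.sin_sq_le_one w
  nlinarith [sq_nonneg r]

lemma den_pos (h0 : 0 ≤ r) (h1 : r < 1) (w : ℝ) : 0 < 1 - r ^ 2 * Real.sin w ^ 2 :=
  (sq_lt h0 h1).trans_le (den_ge h0 h1 w)

lemma rho_pos (h0 : 0 ≤ r) (h1 : r < 1) (w : ℝ) : 0 < rho r w :=
  div_pos (c_pos h0 h1) (den_pos h0 h1 w)

lemma rho_cont (h0 : 0 ≤ r) (h1 : r < 1) : Continuous (rho r) := by
  unfold rho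
  refine continuous_const.div (by fun_prop) (fun w => (den_pos h0 h1 w).ne')

lemma rho_le (h0 : 0 ≤ r) (h1 : r < 1) (w : ℝ) : rho r w ≤ √(1 - r ^ 2) / (1 - r ^ 2) :=
  div_le_div_of_nonneg_left (c_pos h0 h1).le (sq_lt h0 h1) (den_ge h0 h1 w)

lemma lip_bound (h0 : 0 ≤ r) (h1 : r < 1) {f : ℝ → ℝ} (hf : LipR r f) (w w' : ℝ) :
    |f w - f w'| ≤ √(1 - r ^ 2) / (1 - r ^ 2) * |w - w'| := by
  refine (hf.lip w w').trans ?_
  have h := intervalIntegral.norm_integral_le_of_norm_le_const (f := rho r) (a := w) (b := w')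
    (C := √(1 - r ^ 2) / (1 - r ^ 2)) (fun x _ => by
      rw [Real.norm_eq_abs, abs_of_pos (rho_pos h0 h1 x)]; exact rho_le h0 h1 x)
  rw [Real.norm_eq_abs, abs_sub_comm w' w] at h
  exact h

lemma lip_cont (h0 : 0 ≤ r) (h1 : r < 1) {f : ℝ → ℝ} (hf : LipR r f) : Continuous f := by
  have : LipschitzWith (Real.toNNReal (√(1 - r ^ 2) / (1 - r ^ 2))) f := by
    apply LipschitzWith.of_dist_le_mul
    intro x y
    rw [Real.dist_eq, Real.dist_eq, Real.coe_toNNReal _
      (div_nonneg (c_pos h0 h1).le (sq_lt h0 h1).le)]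
    exact lip_bound h0 h1 hf x y
  exact this.continuous

lemma lip_ac (h0 : 0 ≤ r) (h1 : r < 1) {f : ℝ → ℝ} (hf : LipR r f) (a b : ℝ) :
    AbsolutelyContinuousOnInterval f a b := by
  have : LipschitzWith (Real.toNNReal (√(1 - r ^ 2) / (1 - r ^ 2))) f := by
    apply LipschitzWith.of_dist_le_mul
    intro x y
    rw [Real.dist_eq, Real.dist_eq, Real.coe_toNNReal _
      (div_nonneg (c_pos h0 h1).le (sq_lt h0 h1).le)]
    exact lip_bound h0 h1 hf x y
  exact (this.lipschitzOnWith (s := uIcc a b)).absolutelyContinuousOnInterval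

lemma deriv_le (h0 : 0 ≤ r) (h1 : r < 1) {f : ℝ → ℝ} (hf : LipR r f) {x : ℝ}
    (hx : DifferentiableAt ℝ f x) : |deriv f x| ≤ rho r x := by
  have hR : HasDerivAt (fun w => ∫ u in x..w, rho r u) (rho r x) x :=
    intervalIntegral.integral_hasDerivAt_right
      ((rho_cont h0 h1).intervalIntegrable _ _)
      ((rho_cont h0 h1).stronglyMeasurableAtFilter _ _) (rho_cont h0 h1).continuousAt
  have h2 := (hasDerivAt_iff_tendsto_slope.1 hx.hasDerivAt).abs
  have h3 := (hasDerivAt_iff_tendsto_slope.1 hR).abs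
  have h4 : |deriv f x| ≤ |rho r x| := by
    refine le_of_tendsto_of_tendsto h2 h3 ?_
    filter_upwards [self_mem_nhdsWithin] with w hw
    rw [slope_def_field, slope_def_field, abs_div, abs_div, intervalIntegral.integral_same,
      sub_zero]
    refine div_le_div_of_nonneg_right ?_ (abs_nonneg _)
    rw [abs_sub_comm]
    exact hf.lip x w
  rwa [abs_of_pos (rho_pos h0 h1 x)] at h4

theorem s_DUA : S_DUA := by
  intro r f k k' h0 h1 hf hk hk' hper
  have hkc : Continuous k := continuous_iff_continuousAt.2 fun w => (hk w).continuousAt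
  have hkd : deriv k = k' := funext fun w => (hk w).deriv
  have hkac : AbsolutelyContinuousOnInterval k 0 (2 * Real.pi) := by
    apply ContDiffOn.absolutelyContinuousOnInterval
    apply ContDiff.contDiffOn
    rw [contDiff_one_iff_deriv]
    exact ⟨fun w => (hk w).differentiableAt, by rw [hkd]; exact hk'⟩
  have hfac := lip_ac h0 h1 hf 0 (2 * Real.pi)
  have h2 := hfac.integral_mul_deriv_eq_deriv_mul hkac
  rw [hkd] at h2
  have hf0 := hf.per 0
  have hk0 := hper 0
  rw [zero_add] at hf0 hk0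
  rw [h2, hf0, hk0, sub_self, zero_sub, ← intervalIntegral.integral_neg]
  apply intervalIntegral.integral_mono_ae_restrict (by positivity)
  · exact (hfac.intervalIntegrable_deriv.mul_continuousOn hkc.continuousOn).neg
  · exact ((rho_cont h0 h1).mul hkc.abs).intervalIntegrable _ _
  · have h3 : ∀ᵐ x, x ∈ uIcc 0 (2 * Real.pi) → DifferentiableAt ℝ f x :=
      hfac.ae_differentiableAt
    rw [EventuallyLE, ae_restrict_iff' measurableSet_Icc]
    filter_upwards [h3] with x hx hxI
    rw [uIcc_of_le (by positivity)] at hx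
    have h4 := deriv_le h0 h1 hf (hx hxI)
    calc -(deriv f x * k x) ≤ |deriv f x * k x| := neg_le_abs _
      _ = |deriv f x| * |k x| := abs_mul _ _
      _ ≤ rho r x * |k x| := mul_le_mul_of_nonneg_right h4 (abs_nonneg _)

lemma aa_deriv (h0 : 0 ≤ r) (h1 : r < 1) (w : ℝ) :
    HasDerivAt (aa r) (-(r * Real.sin w * rho r w)) w := by
  have hc := c_pos h0 h1
  have hc2 := c_sq h0 h1
  have h2 : HasDerivAt (fun w => r / √(1 - r ^ 2) * Real.cos w)
      (r / √(1 - r ^ 2) * (-Real.sin w)) w := (Real.hasDerivAt_cos w).const_mul _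
  have h3 := h2.arctan
  refine h3.congr_deriv ?_
  have hd := den_pos h0 h1 w
  unfold rho
  have hcos : Real.cos w ^ 2 = 1 - Real.sin w ^ 2 := by
    have := Real.sin_sq_add_cos_sq w; linarith
  have e1 : 1 + (r / √(1 - r ^ 2) * Real.cos w) ^ 2 =
      (1 - r ^ 2 * Real.sin w ^ 2) / (1 - r ^ 2) := by
    rw [mul_pow, div_pow, hc2, hcos]
    have := (sq_lt h0 h1).ne'
    field_simp
    ring
  rw [e1]
  have h4 := (sq_lt h0 h1).ne'
  have h5 : 1 - r ^ 2 = √(1 - r ^ 2) ^ 2 := hc2.symm
  rw [one_div, inv_div]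
  set c := √(1 - r ^ 2) with hcdef
  rw [h5]
  field_simp

lemma aa_cont (h0 : 0 ≤ r) (h1 : r < 1) : Continuous (aa r) :=
  continuous_iff_continuousAt.2 fun w => (aa_deriv h0 h1 w).continuousAt

lemma aa_per (w : ℝ) : aa r (w + 2 * Real.pi) = aa r w := by
  unfold aa; rw [Real.cos_add_two_pi]

/-- duality for `f - aa` -/
lemma dua_aa (h0 : 0 ≤ r) (h1 : r < 1) {f k k' : ℝ → ℝ} (hf : LipR r f)
    (hk : ∀ w, HasDerivAt k (k' w) w) (hk' : Continuous k')
    (hper : ∀ w, k (w + 2 * Real.pi) = k w) :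
    ∫ w in (0 : ℝ)..(2 * Real.pi), (f w - aa r w) * k' w ≤
      ∫ w in (0 : ℝ)..(2 * Real.pi), rho r w * (|k w| - r * Real.sin w * k w) := by
  have hkc : Continuous k := continuous_iff_continuousAt.2 fun w => (hk w).continuousAt
  have hfc := lip_cont h0 h1 hf
  have hac := aa_cont h0 h1
  have hrc := rho_cont h0 h1
  have h2 := s_DUA r f k k' h0 h1 hf hk hk' hper
  have h3 : ∫ w in (0 : ℝ)..(2 * Real.pi), aa r w * k' w =
      ∫ w in (0 : ℝ)..(2 * Real.pi), r * Real.sin w * rho r w * k w := by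
    have h4 := intervalIntegral.integral_mul_deriv_eq_deriv_mul (a := 0) (b := 2 * Real.pi)
      (u := aa r) (v := k) (u' := fun w => -(r * Real.sin w * rho r w)) (v' := k')
      (fun x _ => aa_deriv h0 h1 x) (fun x _ => hk x)
      (by apply Continuous.intervalIntegrable; fun_prop) (hk'.intervalIntegrable _ _)
    have hk0 := hper 0
    have ha0 := aa_per (r := r) 0
    rw [zero_add] at hk0 ha0
    rw [h4, hk0, ha0, sub_self, zero_sub, ← intervalIntegral.integral_neg]
    exact intervalIntegral.integral_congr fun x _ => by ring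
  have e1 : ∫ w in (0 : ℝ)..(2 * Real.pi), (f w - aa r w) * k' w =
      (∫ w in (0 : ℝ)..(2 * Real.pi), f w * k' w) -
        ∫ w in (0 : ℝ)..(2 * Real.pi), aa r w * k' w := by
    rw [← intervalIntegral.integral_sub (by apply Continuous.intervalIntegrable; fun_prop)
      (by apply Continuous.intervalIntegrable; fun_prop)]
    exact intervalIntegral.integral_congr fun x _ => by ring
  have e2 : ∫ w in (0 : ℝ)..(2 * Real.pi), rho r w * (|k w| - r * Real.sin w * k w) =
      (∫ w in (0 : ℝ)..(2 * Real.pi), rho r w * |k w|) -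
        ∫ w in (0 : ℝ)..(2 * Real.pi), r * Real.sin w * rho r w * k w := by
    rw [← intervalIntegral.integral_sub (by apply Continuous.intervalIntegrable; fun_prop)
      (by apply Continuous.intervalIntegrable; fun_prop)]
    exact intervalIntegral.integral_congr fun x _ => by ring
  rw [e1, e2, h3]
  linarith

lemma int_sq (p q : ℝ) : ∫ w in (0 : ℝ)..(2 * Real.pi),
    (p * Real.cos w + q * Real.sin w) ^ 2 = Real.pi * (p ^ 2 + q ^ 2) := by
  have h : ∀ w ∈ uIcc (0 : ℝ) (2 * Real.pi), HasDerivAt (fun w => (p ^ 2 + q ^ 2) / 2 * w +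
      (p ^ 2 - q ^ 2) / 4 * Real.sin (2 * w) - p * q / 2 * Real.cos (2 * w))
      ((p * Real.cos w + q * Real.sin w) ^ 2) w := by
    intro w _
    have h1 : HasDerivAt (fun w : ℝ => 2 * w) 2 w := by
      simpa using (hasDerivAt_id w).const_mul (2 : ℝ)
    have h2 := (((hasDerivAt_id w).const_mul ((p ^ 2 + q ^ 2) / 2)).add
      (h1.sin.const_mul ((p ^ 2 - q ^ 2) / 4))).sub (h1.cos.const_mul (p * q / 2))
    refine h2.congr_deriv ?_
    rw [Real.cos_two_mul, Real.sin_two_mul]
    have := Real.sin_sq_add_cos_sq w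
    nlinarith [this]
  rw [intervalIntegral.integral_eq_sub_of_hasDerivAt h
    (by apply Continuous.intervalIntegrable; fun_prop)]
  have e1 : Real.sin (2 * (2 * Real.pi)) = 0 := by
    have := Real.sin_nat_mul_pi 4
    push_cast at this
    rw [← this]; ring_nf
  have e2 : Real.cos (2 * (2 * Real.pi)) = 1 := by
    have := Real.cos_nat_mul_two_pi 2
    push_cast at this
    rw [← this]
  rw [e1, e2]
  simp
  ring

theorem s_N2 : S_N2 := by
  intro r f h0 h1 hf p q
  have hc := c_pos h0 h1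
  have hfc := lip_cont h0 h1 hf
  have hac := aa_cont h0 h1
  have hrc := rho_cont h0 h1
  set P : ℝ → ℝ := fun w => p * Real.cos w + q * Real.sin w with hP
  have hPc : Continuous P := by rw [hP]; fun_prop
  have hPd : ∀ w, HasDerivAt P (p * (-Real.sin w) + q * Real.cos w) w := fun w =>
    ((Real.hasDerivAt_cos w).const_mul p).add ((Real.hasDerivAt_sin w).const_mul q)
  have hk : ∀ w, HasDerivAt (fun w => Real.sin w * P w ^ 2)
      (3 * Real.cos w * P w ^ 2 - 2 * p * P w) w := by
    intro w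
    have h2 := (Real.hasDerivAt_sin w).mul ((hPd w).pow 2)
    refine h2.congr_deriv ?_
    have e : Real.sin w * (p * (-Real.sin w) + q * Real.cos w) = -p + Real.cos w * P w := by
      have := Real.sin_sq_add_cos_sq w
      rw [hP]
      linear_combination (-p) * this
    simp only [Nat.cast_ofNat, Pi.pow_apply, Nat.add_one_sub_one, pow_one]
    linear_combination (2 * P w) * e
  have h2 := dua_aa h0 h1 hf hk (by fun_prop) (by
    intro w
    show Real.sin (w + 2 * Real.pi) * P (w + 2 * Real.pi) ^ 2 = Real.sin w * P w ^ 2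
    rw [hP]
    simp only [Real.sin_add_two_pi, Real.cos_add_two_pi])
  have h3 : (r / √(1 - r ^ 2)) * ∫ w in (0 : ℝ)..(2 * Real.pi),
      rho r w * (|Real.sin w * P w ^ 2| - r * Real.sin w * (Real.sin w * P w ^ 2)) ≤
      1 / 2 * ∫ w in (0 : ℝ)..(2 * Real.pi), P w ^ 2 := by
    rw [← intervalIntegral.integral_const_mul, ← intervalIntegral.integral_const_mul]
    apply intervalIntegral.integral_mono_on (by positivity)
    · apply Continuous.intervalIntegrable; fun_prop
    · apply Continuous.intervalIntegrable; fun_prop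
    · intro w _
      set s := |Real.sin w| with hs
      have hs0 : 0 ≤ s := abs_nonneg _
      have hs1 : s ≤ 1 := Real.abs_sin_le_one w
      have e1 : Real.sin w ^ 2 = s ^ 2 := (sq_abs _).symm
      have e2 : |Real.sin w * P w ^ 2| = s * P w ^ 2 := by
        rw [abs_mul, abs_of_nonneg (sq_nonneg (P w))]
      have e3 : r * Real.sin w * (Real.sin w * P w ^ 2) = r * s ^ 2 * P w ^ 2 := by
        rw [← e1]; ring
      have hrs : 0 ≤ r * s := mul_nonneg h0 hs0
      have hrs1 : r * s < 1 := by nlinarith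
      have e4 : r / √(1 - r ^ 2) * (rho r w * (s * P w ^ 2 - r * s ^ 2 * P w ^ 2)) =
          (r * s / (1 + r * s)) * P w ^ 2 := by
        unfold rho
        rw [e1]
        have h5 : 1 - r ^ 2 * s ^ 2 = (1 - r * s) * (1 + r * s) := by ring
        rw [h5]
        have h6 : 1 - r * s ≠ 0 := by linarith
        have h7 : 1 + r * s ≠ 0 := by linarith
        field_simp
      rw [e2, e3, e4]
      refine mul_le_mul_of_nonneg_right ?_ (sq_nonneg _)
      rw [div_le_iff₀ (by linarith)]
      linarith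
  have h4 : (r / √(1 - r ^ 2)) * ∫ w in (0 : ℝ)..(2 * Real.pi),
      (f w - aa r w) * (3 * Real.cos w * P w ^ 2 - 2 * p * P w) ≤
      1 / 2 * (Real.pi * (p ^ 2 + q ^ 2)) := by
    rw [← int_sq p q]
    exact (mul_le_mul_of_nonneg_left h2 (by positivity)).trans h3
  have e5 : ∫ w in (0 : ℝ)..(2 * Real.pi),
      (f w - aa r w) * (3 * Real.cos w * P w ^ 2 - 2 * p * P w) =
      3 * (∫ w in (0 : ℝ)..(2 * Real.pi), (f w - aa r w) * Real.cos w * P w ^ 2) -
        2 * p * ∫ w in (0 : ℝ)..(2 * Real.pi), (f w - aa r w) * P w := by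
    rw [← intervalIntegral.integral_const_mul, ← intervalIntegral.integral_const_mul,
      ← intervalIntegral.integral_sub (by apply Continuous.intervalIntegrable; fun_prop)
        (by apply Continuous.intervalIntegrable; fun_prop)]
    exact intervalIntegral.integral_congr fun x _ => by ring
  rw [e5] at h4
  have e6 : (3 * (r / √(1 - r ^ 2)) * ∫ w in (0 : ℝ)..(2 * Real.pi),
      (f w - aa r w) * Real.cos w * P w ^ 2) = (r / √(1 - r ^ 2)) *
      (3 * (∫ w in (0 : ℝ)..(2 * Real.pi), (f w - aa r w) * Real.cos w * P w ^ 2)) := by ring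
  show (3 * (r / √(1 - r ^ 2)) * ∫ w in (0 : ℝ)..(2 * Real.pi),
      (f w - aa r w) * Real.cos w * P w ^ 2) ≤ Real.pi / 2 * (p ^ 2 + q ^ 2) +
      2 * (r / √(1 - r ^ 2)) * p * ∫ w in (0 : ℝ)..(2 * Real.pi), (f w - aa r w) * P w
  rw [e6]
  nlinarith [h4]

theorem s_N1 : S_N1 := by
  intro r f h0 h1 hf a b μ l
  have hc := c_pos h0 h1
  have hfc := lip_cont h0 h1 hf
  have hac := aa_cont h0 h1
  have hrc := rho_cont h0 h1
  have hk : ∀ w, HasDerivAt (kk a b μ l) (6 * Real.cos w * (a * Real.cos (2 * w) +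
      b * Real.sin (2 * w)) - (3 * a - μ) * Real.cos w - (3 * b + l) * Real.sin w) w := by
    intro w
    have h3 : HasDerivAt (fun w : ℝ => 3 * w) 3 w := by
      simpa using (hasDerivAt_id w).const_mul (3 : ℝ)
    have h4 := (((h3.sin.const_mul a).sub (h3.cos.const_mul b)).add
      ((Real.hasDerivAt_sin w).const_mul μ)).add ((Real.hasDerivAt_cos w).const_mul l)
    refine h4.congr_deriv ?_
    rw [Real.cos_three_mul, Real.sin_three_mul, Real.cos_two_mul, Real.sin_two_mul]
    have := Real.sin_sq_add_cos_sq w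
    linear_combination (-12 * b * Real.sin w) * this
  have hper : ∀ w, kk a b μ l (w + 2 * Real.pi) = kk a b μ l w := by
    intro w
    unfold kk
    have e1 : 3 * (w + 2 * Real.pi) = 3 * w + (3 : ℕ) * (2 * Real.pi) := by push_cast; ring
    rw [e1, Real.sin_add_nat_mul_two_pi, Real.cos_add_nat_mul_two_pi, Real.sin_add_two_pi,
      Real.cos_add_two_pi]
  have hkc : Continuous (kk a b μ l) :=
    continuous_iff_continuousAt.2 fun w => (hk w).continuousAt
  have h2 := dua_aa h0 h1 hf hk (by fun_prop) hper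
  have hanti : ∀ w, kk a b μ l (w + Real.pi) = -kk a b μ l w := by
    intro w
    unfold kk
    have e1 : 3 * (w + Real.pi) = 3 * w + (2 * Real.pi) + Real.pi := by ring
    rw [e1, Real.sin_add_pi, Real.cos_add_pi, Real.sin_add_two_pi, Real.cos_add_two_pi,
      Real.sin_add_pi, Real.cos_add_pi]
    ring
  set Φ : ℝ → ℝ := fun w => rho r w * (|kk a b μ l w| - r * Real.sin w * kk a b μ l w) with hΦ
  have hΦc : Continuous Φ := by rw [hΦ]; fun_prop
  have hΦp : ∀ w, Φ (w + Real.pi) = Φ w := by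
    intro w
    show rho r (w + Real.pi) * (|kk a b μ l (w + Real.pi)| -
      r * Real.sin (w + Real.pi) * kk a b μ l (w + Real.pi)) = _
    rw [hanti, Real.sin_add_pi, abs_neg]
    have : rho r (w + Real.pi) = rho r w := by
      unfold rho; rw [Real.sin_add_pi, neg_sq]
    rw [this, hΦ]
    ring
  have hhalf : ∫ w in (0 : ℝ)..(2 * Real.pi), Φ w = 2 * ∫ w in (0 : ℝ)..Real.pi, Φ w := by
    rw [← intervalIntegral.integral_add_adjacent_intervals (b := Real.pi)
      (hΦc.intervalIntegrable _ _) (hΦc.intervalIntegrable _ _)]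
    have e1 : ∫ w in Real.pi..(2 * Real.pi), Φ w = ∫ w in (0 : ℝ)..Real.pi, Φ w := by
      have h5 := intervalIntegral.integral_comp_add_right (a := 0) (b := Real.pi) Φ Real.pi
      rw [zero_add, ← two_mul] at h5
      rw [← h5]
      exact intervalIntegral.integral_congr fun x _ => hΦp x
    rw [e1]; ring
  have e3 : (r / √(1 - r ^ 2)) * ∫ w in (0 : ℝ)..Real.pi, Φ w =
      r * ∫ w in (0 : ℝ)..Real.pi, (|kk a b μ l w| - r * Real.sin w * kk a b μ l w) /
      (1 - r ^ 2 * Real.sin w ^ 2) := by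
    rw [← intervalIntegral.integral_const_mul, ← intervalIntegral.integral_const_mul]
    refine intervalIntegral.integral_congr fun w _ => ?_
    have := (den_pos h0 h1 w).ne'
    simp only [hΦ, rho]
    field_simp
  have e4 : a * xx r f + b * yy r f = (r / √(1 - r ^ 2)) / 2 *
      ((∫ w in (0 : ℝ)..(2 * Real.pi), (f w - aa r w) * (6 * Real.cos w * (a * Real.cos (2 * w) +
      b * Real.sin (2 * w)) - (3 * a - μ) * Real.cos w - (3 * b + l) * Real.sin w)) +
      ((3 * a - μ) * m1 r f + (3 * b + l) * m2 r f)) := by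
    unfold xx yy m1 m2
    have e5 : ∫ w in (0 : ℝ)..(2 * Real.pi), (f w - aa r w) * (6 * Real.cos w *
        (a * Real.cos (2 * w) + b * Real.sin (2 * w)) - (3 * a - μ) * Real.cos w -
        (3 * b + l) * Real.sin w) =
        6 * a * (∫ w in (0 : ℝ)..(2 * Real.pi), (f w - aa r w) *
          (Real.cos w * Real.cos (2 * w))) +
        6 * b * (∫ w in (0 : ℝ)..(2 * Real.pi), (f w - aa r w) *
          (Real.cos w * Real.sin (2 * w))) -
        (3 * a - μ) * (∫ w in (0 : ℝ)..(2 * Real.pi), (f w - aa r w) * Real.cos w) -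
        (3 * b + l) * (∫ w in (0 : ℝ)..(2 * Real.pi), (f w - aa r w) * Real.sin w) := by
      rw [← intervalIntegral.integral_const_mul, ← intervalIntegral.integral_const_mul,
        ← intervalIntegral.integral_const_mul, ← intervalIntegral.integral_const_mul,
        ← intervalIntegral.integral_add (by apply Continuous.intervalIntegrable; fun_prop)
        (by apply Continuous.intervalIntegrable; fun_prop),
        ← intervalIntegral.integral_sub (by apply Continuous.intervalIntegrable; fun_prop)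
        (by apply Continuous.intervalIntegrable; fun_prop),
        ← intervalIntegral.integral_sub (by apply Continuous.intervalIntegrable; fun_prop)
        (by apply Continuous.intervalIntegrable; fun_prop)]
      exact intervalIntegral.integral_congr fun x _ => by ring
    rw [e5]
    ring
  rw [e4, ← e3]
  have h6 : ∫ w in (0 : ℝ)..(2 * Real.pi), (f w - aa r w) * (6 * Real.cos w *
        (a * Real.cos (2 * w) + b * Real.sin (2 * w)) - (3 * a - μ) * Real.cos w -
        (3 * b + l) * Real.sin w) ≤ 2 * ∫ w in (0 : ℝ)..Real.pi, Φ w := h2.trans hhalf.le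
  have h7 : 0 ≤ r / √(1 - r ^ 2) := by positivity
  have h8 := mul_le_mul_of_nonneg_left h6 h7
  nlinarith [h8]

end

end Pool.Agent.L7h73.FA
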